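import Mathlib

set_option autoImplicit false
open Set Relation

namespace Pool.Agent.H.MP_6e7106_pr

abbrev Z (w : ℕ) := ℤ × ZMod w
variable {w : ℕ}

def d {A B : Type} [Zero A] [One A] [Zero B] [One B] (c : Bool) : A × B := if c then (1, 0) else (0, 1)

def St (η : Z w × Bool → Bool) (I : Set ℤ) (x y : Z w) : Prop :=
  ∃ z c, z.1 ∈ I ∧ η (z, c) = true ∧ ((x = z ∧ y = z + d c) ∨ (y = z ∧ x = z + d c))

def R (η : Z w × Bool → Bool) (I : Set ℤ) : Z w → Z w → Prop := ReflTransGen (St η I)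

def X (a b : ℤ) : Set (Z w × Bool → Bool) := {η | ∃ x y, x.1 = a ∧ y.1 = b ∧ R η (Ico a b) x y}

def Full (t : ℤ) : Set (Z w × Bool → Bool) := {η | ∀ j, η ((t, j), false) = true}

variable {η : Z w × Bool → Bool} {I J : Set ℤ} {x y : Z w} {a b : ℤ}

lemma R.symm (h : R η I x y) : R η I y x := by
  induction h with
  | refl => exact .refl
  | tail _ hs ih => obtain ⟨z, c, h1, h2, h3⟩ := hs; exact .head ⟨z, c, h1, h2, h3.symm⟩ ih

lemma R.cg {η' : Z w × Bool → Bool} (h : R η I x y) (hI : I ⊆ J)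
    (e : ∀ z c, z.1 ∈ I → η (z, c) = η' (z, c)) : R η' J x y := by
  induction h with
  | refl => exact .refl
  | tail _ hs ih =>
    obtain ⟨z, c, h1, h2, h3⟩ := hs; exact .tail ih ⟨z, c, hI h1, e z c h1 ▸ h2, h3⟩

lemma R.mono (h : R η I x y) (hI : I ⊆ J) : R η J x y := h.cg hI fun _ _ _ => rfl

lemma ivt (h : R η I x y) {t : ℤ} (h1 : x.1 ≤ t) (h2 : t ≤ y.1) :
    ∃ z : Z w, z.1 = t ∧ R η I x z := by
  induction h with
  | refl => exact ⟨x, le_antisymm h1 h2, .refl⟩
  | @tail u v hu hs ih =>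
    by_cases h : t ≤ u.1
    · exact ih h
    · refine ⟨v, ?_, .tail hu hs⟩
      obtain ⟨z, c, -, -, ⟨rfl, rfl⟩ | ⟨rfl, rfl⟩⟩ := hs <;> cases c <;> simp [d] at * <;> omega

lemma cross (h : R η I x y) (h1 : x.1 ≤ a) (h2 : b ≤ y.1) (h3 : a ≤ b) : η ∈ X a b := by
  suffices y.1 < a ∨ (a ≤ y.1 ∧ y.1 ≤ b ∧ ∃ u, u.1 = a ∧ R η (Ico a b) u y) ∨ η ∈ X a b by
    rcases this with h | ⟨h, h', u, h4, h5⟩ | h
    · omega
    · exact ⟨u, y, h4, by omega, h5⟩
    · exact h
  clear h2
  induction h with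
  | refl =>
    rcases h1.lt_or_eq with h | h
    · exact .inl h
    · exact .inr (.inl ⟨h.ge, by omega, x, h, .refl⟩)
  | @tail u v hu hs ih =>
    obtain ⟨z, c, q1, q2, q3⟩ := hs
    have q4 : (z + d c).1 = z.1 ∨ (z + d c).1 = z.1 + 1 := by cases c <;> simp [d]
    rcases ih with h | ⟨h, h', r, h4, h5⟩ | h
    · by_cases k : v.1 < a
      · exact .inl k
      · refine .inr (.inl ⟨by omega, ?_, v, ?_, .refl⟩) <;>
          rcases q3 with ⟨rfl, rfl⟩ | ⟨rfl, rfl⟩ <;> omega
    · by_cases k : u.1 = b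
      · exact .inr (.inr ⟨r, u, h4, k, h5⟩)
      by_cases k' : v.1 < a
      · exact .inl k'
      refine .inr (.inl ⟨by omega, ?_, r, h4, .tail h5 ⟨z, c, ?_, q2, q3⟩⟩) <;>
        rcases q3 with ⟨rfl, rfl⟩ | ⟨rfl, rfl⟩ <;> (try simp only [mem_Ico]) <;> omega
    · exact .inr (.inr h)

lemma full [NeZero w] {t : ℤ} (h : η ∈ Full t) (ht : t ∈ I) (h1 : x.1 = t) (h2 : y.1 = t) :
    R η I x y := by
  have : ∀ n : ℕ, R η I x (t, x.2 + n) := fun n => by
    induction n with
    | zero => rw [← h1, Nat.cast_zero, add_zero]; exact .refl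
    | succ n ih => exact .tail ih ⟨(t, x.2 + n), false, ht, h _, .inl ⟨rfl, by simp [d, add_assoc]⟩⟩
  have := this (y.2 - x.2).val
  rwa [ZMod.natCast_zmod_val, add_sub_cancel, ← h2] at this

lemma glue [NeZero w] {t b' c : ℤ} (h : R η I x y) (hx : x.1 ≤ t) (hy : t ≤ y.1) (hf : η ∈ Full t)
    (hX : η ∈ X b' c) (h1 : b' ≤ t) (h2 : t < c) (h3 : I ⊆ J) (h4 : Ico b' c ⊆ J) :
    ∃ y, y.1 = c ∧ R η J x y := by
  obtain ⟨u, v, u1, v1, q⟩ := hX
  obtain ⟨z, z1, z2⟩ := ivt h hx hy
  obtain ⟨z', z3, z4⟩ := ivt q (t := t) (by omega) (by omega)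
  exact ⟨v, v1, (z2.mono h3).trans ((full hf (h4 ⟨h1, h2⟩) z1 z3).trans
    (R.mono (z4.symm.trans q) h4))⟩

lemma chain [NeZero w] (m : ℕ) (N : ℕ) (h : ∀ k ≤ N, η ∈ X (k * m) (k * m + 2 * m))
    (hf : ∀ k ≤ N, ∃ i < m, η ∈ Full (k * m + i)) : η ∈ X 0 (N * m + 2 * m) := by
  induction N with
  | zero => simpa using h 0 le_rfl
  | succ N ih =>
    obtain ⟨x, y, x1, y1, q⟩ := ih (fun k hk => h k (by omega)) fun k hk => hf k (by omega)
    obtain ⟨i, i1, i2⟩ := hf (N + 1) le_rfl
    have e : ((N + 1 : ℕ) : ℤ) * m = N * m + m := by push_cast; ring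
    have e0 : (0:ℤ) ≤ N * m := by positivity
    obtain ⟨v, v1, v2⟩ := glue (J := Ico 0 ((N + 1 : ℕ) * m + 2 * m)) q (by omega) (by omega) i2
      (h (N + 1) le_rfl) (by omega) (by omega) (Ico_subset_Ico le_rfl (by omega))
      (Ico_subset_Ico (by omega) le_rfl)
    exact ⟨x, v, x1, v1, v2⟩

lemma R.shift (s : ℤ) (h : R (fun q => η (q.1 + (s, 0), q.2)) (Ico a b) x y) :
    R η (Ico (a + s) (b + s)) (x + (s, 0)) (y + (s, 0)) := by
  induction h with
  | refl => exact .refl
  | tail _ hs ih =>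
    obtain ⟨z, c, h1, h2, h3⟩ := hs
    exact .tail ih ⟨z + (s, 0), c, by simp only [mem_Ico, Prod.fst_add] at *; omega, h2, by
      rcases h3 with ⟨rfl, rfl⟩ | ⟨rfl, rfl⟩ <;> simp [add_right_comm]⟩

lemma X_shift (s : ℤ) : (fun q => η (q.1 + (s, 0), q.2)) ∈ X a b ↔ η ∈ X (a + s) (b + s) := by
  have k : ∀ {η : Z w × Bool → Bool} {a b : ℤ} (s : ℤ), (fun q => η (q.1 + (s, 0), q.2)) ∈ X a b →
      η ∈ X (a + s) (b + s) := fun s ⟨x, y, h1, h2, h⟩ =>
    ⟨_, _, by simp [h1], by simp [h2], h.shift s⟩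
  refine ⟨k s, fun h => ?_⟩
  have := k (η := fun q => η (q.1 + (s, 0), q.2)) (a := a + s) (b := b + s) (-s)
    (by simpa [add_assoc, Prod.mk_zero_zero] using h)
  simpa using this

abbrev M := Bool ⊕ Bool

def step (a : Z w) : M → Z w
  | .inl true => a + (1, 0)
  | .inl false => a - (1, 1)
  | .inr _ => a + (0, 1)

def fin : Z w → List M → Z w
  | a, [] => a
  | a, m :: u => fin (step a m) u

def pos : Z w → List M → List (Z w)
  | _, [] => []
  | a, m :: u => a :: pos (step a m) u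

def marks : Z w → List M → List (Z w × Bool)
  | _, [] => []
  | a, .inl b :: u => marks (step a (.inl b)) u
  | a, .inr k :: u => (a, k) :: marks (step a (.inr k)) u

def ht : List M → ℤ
  | [] => 0
  | .inl true :: u => ht u
  | .inl false :: u => ht u - 1
  | .inr _ :: u => ht u + 1

def ed (q : Z w × Bool) : Z w × Bool := if q.2 then q else (q.1 + (1, 0), false)

def alive (η : Z w × Bool → Bool) : ℕ → Z w → Prop
  | 0, _ => True
  | n + 1, z => (∀ k, η (ed (z, k)) = true) ∧ (alive η n (z + (1, 0)) ∨ alive η n (z + (1, 1)))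

lemma alive_R : ∀ (n : ℕ) (z : Z w), alive η n z →
    ∃ y, y.1 = z.1 + n ∧ R η (Ico z.1 (z.1 + n + 1)) z y := by
  intro n
  induction n with
  | zero => exact fun z _ => ⟨z, by simp, .refl⟩
  | succ n ih =>
    rintro z ⟨h1, h2⟩
    have e1 : St η (Ico z.1 (z.1 + (n + 1 : ℕ) + 1)) z (z + (1, 0)) :=
      ⟨z, true, ⟨le_rfl, by omega⟩, h1 true, .inl ⟨rfl, rfl⟩⟩
    have e2 : St η (Ico z.1 (z.1 + (n + 1 : ℕ) + 1)) (z + (1, 0)) (z + (1, 1)) :=
      ⟨z + (1, 0), false, by simp only [mem_Ico, Prod.fst_add]; omega, h1 false,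
        .inl ⟨rfl, by simp [d, add_assoc]⟩⟩
    rcases h2 with h | h <;> obtain ⟨y, y1, y2⟩ := ih _ h <;>
      simp only [Prod.fst_add] at y1 y2 <;> refine ⟨y, by omega, .head e1 ?_⟩
    · exact y2.mono (Ico_subset_Ico (by omega) (by omega))
    · exact .head e2 (y2.mono (Ico_subset_Ico (by omega) (by omega)))

lemma fin_append (a : Z w) (u v : List M) : fin a (u ++ v) = fin (fin a u) v := by
  induction u generalizing a with
  | nil => rfl
  | cons m u ih => simp [fin, ih]

lemma pos_append (a : Z w) (u v : List M) : pos a (u ++ v) = pos a u ++ pos (fin a u) v := by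
  induction u generalizing a with
  | nil => rfl
  | cons m u ih => simp [fin, pos, ih]

lemma marks_append (a : Z w) (u v : List M) :
    marks a (u ++ v) = marks a u ++ marks (fin a u) v := by
  induction u generalizing a with
  | nil => rfl
  | cons m u ih => cases m <;> simp [fin, marks, ih]

lemma ht_append (u v : List M) : ht (u ++ v) = ht u + ht v := by
  induction u with
  | nil => simp [ht]
  | cons m u ih => rcases m with (_ | _) | _ <;> simp only [ht, List.cons_append, ih] <;> ring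

lemma fin_snd (a : Z w) (u : List M) : (fin a u).2 = a.2 + ht u := by
  induction u generalizing a with
  | nil => simp [fin, ht]
  | cons m u ih => rcases m with (_ | _) | _ <;> simp [fin, ht, ih, step] <;> ring

lemma marks_len (u : List M) (a : Z w) :
    3 * ((marks a u).length : ℤ) = u.length + 2 * ht u - ((fin a u).1 - a.1) := by
  induction u generalizing a with
  | nil => simp [marks, fin, ht]
  | cons m u ih =>
    have := ih (step a m)
    rcases m with (_ | _) | k <;>
      simp only [marks, fin, step, ht, List.length_cons, Prod.fst_add, Prod.fst_sub] at this ⊢ <;>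
      push_cast <;> omega

lemma marks_sub (u : List M) (a : Z w) : ((marks a u).map Prod.fst).Sublist (pos a u) := by
  induction u generalizing a with
  | nil => simp [marks, pos]
  | cons m u ih =>
    cases m with
    | inl b => exact (ih _).trans (List.sublist_cons_self _ _)
    | inr k => simpa [marks, pos] using ih _

lemma dead : ∀ (n : ℕ) (z : Z w), ¬ alive η n z → ∃ u, fin z u = z + (0, 1) ∧ ht u = 1 ∧
    (∀ v ∈ marks z u, η (ed v) = false) ∧ ∀ c ∈ pos z u, z.1 ≤ c.1 ∧ c.1 ≤ z.1 + n := by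
  intro n
  induction n with
  | zero => intro z h; exact absurd trivial h
  | succ n ih =>
    intro z h
    by_cases h1 : ∀ k, η (ed (z, k)) = true
    · obtain ⟨u, u1, u2, u3, u4⟩ := ih _ fun e => h ⟨h1, Or.inl e⟩
      obtain ⟨v, v1, v2, v3, v4⟩ := ih _ fun e => h ⟨h1, Or.inr e⟩
      have e : z + (1, 0) + (0, 1) = z + (1, 1) := by simp [add_assoc]
      rw [e] at u1
      refine ⟨.inl true :: (u ++ (v ++ [.inl false])), ?_, ?_, ?_, ?_⟩
      · simp only [fin, step, fin_append, u1, v1]; abel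
      · simp [ht, ht_append, u2, v2]
      · intro q hq
        simp only [marks, step, marks_append, u1, List.mem_append, List.append_nil] at hq
        exact hq.elim (u3 q) (v3 q)
      · intro c hc
        simp only [pos, step, pos_append, u1, v1, List.mem_append, List.mem_cons,
          List.not_mem_nil, or_false] at hc
        rcases hc with rfl | hc | hc | rfl
        · omega
        · have := u4 c hc; simp only [Prod.fst_add] at this; omega
        · have := v4 c hc; simp only [Prod.fst_add] at this; omega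
        · simp only [Prod.fst_add]; omega
    · push Not at h1
      obtain ⟨k, hk⟩ := h1
      exact ⟨[.inr k], by simp [fin, step], by simp [ht], by simpa [marks] using hk,
        by simp [pos]; omega⟩

lemma split (c : Z w) : ∀ (u : List M) (a : Z w), c ∈ pos a u →
    ∃ s t, u = s ++ t ∧ fin a s = c ∧ c ∈ pos c t := by
  intro u
  induction u with
  | nil => intro a h; simp [pos] at h
  | cons m u ih =>
    intro a h
    rcases List.mem_cons.1 h with rfl | h
    · exact ⟨[], m :: u, rfl, rfl, by simp [pos]⟩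
    · obtain ⟨s, t, rfl, h1, h2⟩ := ih _ h
      exact ⟨m :: s, t, rfl, h1, h2⟩

lemma erase : ∀ (u : List M) (a : Z w), ∃ c v, (pos c v).Nodup ∧ (∀ q ∈ marks c v, q ∈ marks a u) ∧
    ((c = a ∧ fin a v = fin a u ∧ ht u ≤ ht v ∧ ∀ q ∈ pos a v, q ∈ pos a u) ∨
      (c ∈ pos a u ∧ fin c v = c ∧ (w:ℤ) ≤ ht v)) := by
  intro u
  induction u with
  | nil => exact fun a => ⟨a, [], by simp [pos], fun _ h => h, .inl ⟨rfl, rfl, le_rfl, fun _ h => h⟩⟩
  | cons m u ih =>
    intro a
    have hm : ∀ {v v' : List M}, (∀ q ∈ marks (step a m) v, q ∈ marks (step a m) v') →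
        ∀ q ∈ marks a (m :: v), q ∈ marks a (m :: v') := fun h q hq => by
      cases m with
      | inl b => exact h q hq
      | inr k => simp only [marks, List.mem_cons] at hq ⊢; exact hq.imp id (h q)
    have hm' : ∀ q ∈ marks (step a m) u, q ∈ marks a (m :: u) := fun q hq => by
      cases m <;> simp [marks, hq]
    have hH : ∀ v, ht (m :: v) = ht [m] + ht v := fun v => ht_append [m] v
    obtain ⟨c, v, h1, h2, ⟨rfl, h3, h4, h5⟩ | ⟨h3, h4⟩⟩ := ih (step a m)
    · by_cases h : a ∈ pos (step a m) v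
      · obtain ⟨s, t, rfl, s1, s2⟩ := split a v _ h
        rw [pos_append, s1] at h1 h5
        rw [marks_append, s1] at h2
        rw [fin_append, s1] at h3
        rw [ht_append] at h4
        by_cases k : ht (m :: s) ≤ 0
        · refine ⟨a, t, h1.of_append_right, fun q hq => hm' q (h2 q (by simp [hq])),
            .inl ⟨rfl, h3, by rw [hH] at *; omega, fun q hq => ?_⟩⟩
          exact List.mem_cons_of_mem _ (h5 q (by simp [hq]))
        · refine ⟨a, m :: s, List.nodup_cons.2 ⟨fun k => ?_, h1.of_append_left⟩,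
            hm fun q hq => h2 q (by simp [hq]), .inr ⟨by simp [pos], s1, ?_⟩⟩
          · exact (List.nodup_append.1 h1).2.2 a k a s2 rfl
          · have := fin_snd a (m :: s)
            rw [show fin a (m :: s) = a from s1, left_eq_add, ZMod.intCast_zmod_eq_zero_iff_dvd]
              at this
            exact Int.le_of_dvd (by omega) this
      · refine ⟨a, m :: v, List.nodup_cons.2 ⟨h, h1⟩, hm h2, .inl ⟨rfl, h3, by
          rw [hH, hH v]; omega, fun q hq => ?_⟩⟩
        simp only [pos, List.mem_cons] at hq ⊢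
        exact hq.imp id (h5 q)
    · exact ⟨c, v, h1, fun q hq => hm' q (h2 q hq), .inr ⟨List.mem_cons_of_mem _ h3, h4⟩⟩

def Wd (c : Z w) (h : ℕ) : Set (Z w × Bool → Bool) := {η | ∃ v : List M, (pos c v).Nodup ∧
  v.length + h ≤ 3 * (marks c v).length ∧ ∀ q ∈ marks c v, η (ed q) = false}

lemma dead' (n : ℕ) (z : Z w) (h : ¬ alive η n z) :
    η ∈ Wd z 2 ∨ ∃ c : Z w, z.1 ≤ c.1 ∧ c.1 ≤ z.1 + n ∧ η ∈ Wd c (2 * w) := by
  obtain ⟨u, u1, u2, u3, u4⟩ := dead n z h
  obtain ⟨c, v, h1, h2, ⟨rfl, h3, h4, -⟩ | ⟨h3, h4, h5⟩⟩ := erase u z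
  · refine .inl ⟨v, h1, ?_, fun q hq => u3 q (h2 q hq)⟩
    have := marks_len v c
    rw [h3, u1] at this
    simp only [Prod.fst_add] at this
    omega
  · refine .inr ⟨c, (u4 c h3).1, (u4 c h3).2, v, h1, ?_, fun q hq => u3 q (h2 q hq)⟩
    have := marks_len v c
    rw [h4] at this
    omega

lemma ed_inj : Function.Injective (ed (w := w)) := by
  rintro ⟨a, _ | _⟩ ⟨b, _ | _⟩ h <;> simp_all [ed]

end Pool.Agent.H.MP_6e7106_pr
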