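import Mathlib
import Pool.Agent.H.MP_6e7106_pr.A
import Pool.Agent.Lib.helper3.Coins

set_option autoImplicit false
open Set Relation MeasureTheory ProbabilityTheory Filter

namespace Pool.Agent.H.MP_6e7106_pr

noncomputable def p0 : unitInterval := ⟨999 / 1000, by norm_num, by norm_num⟩

noncomputable abbrev P (ι : Type) : Measure (ι → Bool) :=
  Measure.infinitePi fun _ : ι => bernoulliMeasure true false p0

def Dep {ι : Type} (S : Finset ι) (A : Set (ι → Bool)) : Prop :=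
  ∀ η η' : ι → Bool, (∀ i ∈ S, η i = η' i) → η ∈ A → η' ∈ A

section
variable {ι E : Type} {S : Finset ι} {A : Set (ι → Bool)}

lemma Dep.compl (h : Dep S A) : Dep S Aᶜ :=
  fun η η' e h1 h2 => h1 (h η' η (fun i hi => (e i hi).symm) h2)

lemma Dep.mono {T : Finset ι} (h : Dep S A) (hT : S ⊆ T) : Dep T A :=
  fun η η' e => h η η' fun i hi => e i (hT hi)

open Classical in
lemma Dep.eq (h : Dep S A) : A = (fun η (i : S) => η i) ⁻¹'
    {ζ : S → Bool | (fun i => if h : i ∈ S then ζ ⟨i, h⟩ else false) ∈ A} :=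
  Set.ext fun η => ⟨h _ _ fun i hi => by simp [hi], h _ _ fun i hi => by simp [hi]⟩

lemma Dep.meas (h : Dep S A) : MeasurableSet[cylinderEvents (S : Set ι)] A := by
  rw [h.eq]
  exact (@measurable_pi_iff _ _ _ (cylinderEvents (S : Set ι)) _ _).2
    (fun i => measurable_cylinderEvent_apply i.2) .of_discrete

lemma hmap (φ : ι → E) (h : φ.Injective) : MeasurePreserving (fun ω i => ω (φ i)) (P E) (P ι) :=
  ⟨by fun_prop, by
    have := ((iIndepFun_infinitePi (P := fun _ : E => bernoulliMeasure true false p0)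
      (X := fun _ u => u) fun _ => measurable_id).precomp h).map_fun_eq_infinitePi_map
      (by fun_prop)
    simpa only [Measure.infinitePi_map_eval] using this⟩

lemma tr (h : Dep S A) (ψ : ι → E) (hψ : InjOn ψ S) :
    (P E).real {ω | (fun i => ω (ψ i)) ∈ A} = (P ι).real A := by
  classical
  rw [h.eq]
  have a := (hmap (fun i : S => ψ i) fun i j e => Subtype.ext (hψ i.2 j.2 e)).measureReal_preimage
    (s := {ζ : S → Bool | (fun i => if h : i ∈ S then ζ ⟨i, h⟩ else false) ∈ A})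
    (MeasurableSet.of_discrete.nullMeasurableSet)
  have b := (hmap (fun i : S => (i : ι)) Subtype.val_injective).measureReal_preimage
    (s := {ζ : S → Bool | (fun i => if h : i ∈ S then ζ ⟨i, h⟩ else false) ∈ A})
    (MeasurableSet.of_discrete.nullMeasurableSet)
  exact a.trans b.symm

lemma prod (S : ℕ → Finset ι) (A : ℕ → Set (ι → Bool)) (h : ∀ k, Dep (S k) (A k))
    (hd : ∀ k l, k < l → Disjoint (S k) (S l)) (r : ℝ) (hr : ∀ k, (P ι).real (A k) = r) (K : ℕ) :
    (P ι).real (⋂ k < K, A k) = r ^ K := by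
  classical
  induction K with
  | zero => simp
  | succ K ih =>
    have : Dep ((Finset.range K).biUnion S) (⋂ k < K, A k) := fun η η' e h1 => by
      simp only [mem_iInter] at *
      exact fun k hk => h k η η' (fun i hi => e i (Finset.mem_biUnion.2
        ⟨k, Finset.mem_range.2 hk, hi⟩)) (h1 k hk)
    rw [biInter_lt_succ, measureReal_def, Lib.helper3.Coins.indep_cyl _ _ this.meas (h K).meas,
      ENNReal.toReal_mul, pow_succ, ← ih, ← hr K]
    · rfl
    · rw [Finset.disjoint_coe, Finset.disjoint_biUnion_left]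
      exact fun k hk => hd k K (Finset.mem_range.1 hk)

lemma cyl (S : Finset ι) (b : Bool) :
    (P ι).real {η | ∀ i ∈ S, η i = b} = (if b then 999 / 1000 else 1 / 1000) ^ S.card := by
  rw [show {η : ι → Bool | ∀ i ∈ S, η i = b} = Set.pi S fun _ => {b} from rfl, measureReal_def,
    Measure.infinitePi_pi _ fun _ _ => .of_discrete, Finset.prod_const, ENNReal.toReal_pow]
  congr 1
  cases b
  · refine (bernoulliMeasure_real_apply_of_notMem_of_mem p0 .of_discrete (by simp) (by simp)).trans ?_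
    norm_num [p0]
  · exact bernoulliMeasure_real_apply_of_mem_of_notMem p0 .of_discrete (by simp) (by simp)
end

variable {w : ℕ} [NeZero w]

noncomputable def B (w : ℕ) [NeZero w] (a b : ℤ) : Finset (Z w × Bool) :=
  (Finset.Ico a b ×ˢ Finset.univ) ×ˢ Finset.univ

lemma mem_B {a b : ℤ} {q : Z w × Bool} : q ∈ B w a b ↔ a ≤ q.1.1 ∧ q.1.1 < b := by simp [B]

lemma X_dep (a b : ℤ) : Dep (B w a b) (X a b) := fun _ _ e ⟨x, y, h1, h2, h⟩ =>
  ⟨x, y, h1, h2, h.cg subset_rfl fun z c hz => e (z, c) (mem_B.2 hz)⟩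

noncomputable def f (w : ℕ) (l : ℕ) : ℝ := (P (Z w × Bool)).real (X 0 l)

lemma X_pr (a : ℤ) (l : ℕ) : (P (Z w × Bool)).real (X a (a + l)) = f w l := by
  rw [f, ← tr (X_dep 0 l) (fun q => (q.1 + (a, 0), q.2)) fun q _ r _ h => by
    simpa [Prod.ext_iff (x := q)] using h]
  congr 1
  ext η
  rw [mem_ofPred_eq, X_shift, zero_add, add_comm]

lemma X_prc (a : ℤ) (l : ℕ) : (P (Z w × Bool)).real (X a (a + l))ᶜ = 1 - f w l := by
  rw [probReal_compl_eq_one_sub (cylinderEvents_le_pi _ (X_dep _ _).meas), X_pr]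

omit [NeZero w] in
lemma f_anti {l m : ℕ} (h : l ≤ m) : f w m ≤ f w l :=
  measureReal_mono fun _ ⟨_, _, h1, h2, h⟩ => cross h h1.le (by omega) (by positivity)

lemma lev (c b : Bool) (a : ℤ) (m : ℕ) :
    (P (Z w × Bool)).real (⋂ k < m, {η | ∀ j, η ((a + k, j), c) = b}ᶜ) =
      (1 - (if b then 999 / 1000 else 1 / 1000) ^ w) ^ m := by
  classical
  have hd : ∀ t : ℤ, Dep (B w t (t + 1)) {η | ∀ j, η ((t, j), c) = b} := fun t η η' e h j =>
    e ((t, j), c) (mem_B.2 ⟨le_rfl, by simp⟩) ▸ h j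
  refine prod (fun k => B w (a + k) (a + k + 1)) _ (fun k => (hd _).compl)
    (fun k l h => Finset.disjoint_left.2 fun q h1 h2 => ?_) _ (fun k => ?_) m
  · rw [mem_B] at h1 h2; omega
  · rw [probReal_compl_eq_one_sub (cylinderEvents_le_pi _ (hd _).meas)]
    have := cyl (Finset.univ.image fun j : ZMod w => ((a + k, j), c)) b
    rw [Finset.card_image_of_injective _ fun i j h => by simpa using h] at this
    simpa using this

lemma f_small : ∃ l, f w l < 1 / 2 := by
  have h0 : (0:ℝ) < (1 / 1000) ^ w := by positivity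
  have h1 : (1 / 1000 : ℝ) ^ w ≤ 1 := pow_le_one₀ (by norm_num) (by norm_num)
  obtain ⟨l, hl⟩ := exists_pow_lt_of_lt_one (show (0:ℝ) < 1 / 2 by norm_num)
    (show 1 - (1 / 1000 : ℝ) ^ w < 1 by linarith)
  refine ⟨l, lt_of_le_of_lt ?_ hl⟩
  refine le_trans (measureReal_mono ?_) (lev (w := w) true false 0 l).le
  intro η ⟨x, y, x1, y1, h⟩
  simp only [mem_iInter]
  intro k hk hc
  obtain ⟨u, v, u1, v1, q⟩ := cross (a := k) (b := k + 1) h (by omega) (by omega) (by omega)
  have : v.1 = k := by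
    clear v1
    induction q with
    | refl => exact u1
    | tail _ hs ih =>
      obtain ⟨⟨t, j⟩, c, h1, h2, h3⟩ := hs
      obtain rfl : t = k := by simp only [mem_Ico] at h1; omega
      cases c
      · rcases h3 with ⟨rfl, rfl⟩ | ⟨rfl, rfl⟩ <;> simp [d]
      · have := hc j; simp_all
  omega

omit [NeZero w] in
lemma Wd_pr (c : Z w) (h : ℕ) : (P (Z w × Bool)).real (Wd c h) ≤ 5 / 3 * (1 / 10) ^ h := by
  classical
  let E : List M → Set (Z w × Bool → Bool) := fun v => {η | (pos c v).Nodup ∧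
    v.length + h ≤ 3 * (marks c v).length ∧ ∀ q ∈ marks c v, η (ed q) = false}
  have hE : ∀ v, (P _).real (E v) ≤ (1 / 10) ^ (v.length + h) := fun v => by
    by_cases k : (pos c v).Nodup ∧ v.length + h ≤ 3 * (marks c v).length
    · have nd : (marks c v).Nodup := List.Nodup.of_map _ (k.1.sublist (marks_sub v _))
      have := cyl ((marks c v).map ed).toFinset false
      rw [List.toFinset_card_of_nodup (nd.map ed_inj), List.length_map] at this
      refine (measureReal_mono fun η hη => ?_).trans (this.le.trans ?_)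
      · intro i hi
        obtain ⟨q, hq, rfl⟩ := List.mem_map.1 (List.mem_toFinset.1 hi)
        exact hη.2.2 q hq
      · refine le_trans (le_of_eq ?_) (pow_le_pow_of_le_one (by norm_num) (by norm_num) k.2)
        rw [pow_mul]; norm_num
    · have : E v = ∅ := eq_empty_of_forall_notMem fun η hη => k ⟨hη.1, hη.2.1⟩
      rw [this, measureReal_empty]; positivity
  have hs := (hasSum_geometric_of_lt_one (r := (2 / 5 : ℝ)) (by norm_num) (by norm_num)).mul_right
    ((1 / 10) ^ h)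
  refine ENNReal.toReal_le_of_le_ofReal (by positivity) ?_
  rw [show (5 / 3 : ℝ) = (1 - 2 / 5)⁻¹ by norm_num, ← hs.tsum_eq,
    ENNReal.ofReal_tsum_of_nonneg (fun _ => by positivity) hs.summable]
  refine le_trans (measure_mono (t := ⋃ n : ℕ, ⋃ g : Fin n → M, E (List.ofFn g)) ?_)
    ((measure_iUnion_le _).trans (ENNReal.tsum_le_tsum fun n => ?_))
  · rintro η ⟨v, hv⟩
    exact mem_iUnion.2 ⟨v.length, mem_iUnion.2 ⟨v.get, by rwa [List.ofFn_get]⟩⟩
  · rw [← ENNReal.ofReal_toReal (measure_ne_top _ _)]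
    refine ENNReal.ofReal_le_ofReal ((measureReal_iUnion_fintype_le _).trans ?_)
    refine (Finset.sum_le_card_nsmul _ _ ((1 / 10) ^ (n + h)) fun g _ => ?_).trans (le_of_eq ?_)
    · simpa using hE (List.ofFn g)
    · simp only [Finset.card_univ, Fintype.card_fun, Fintype.card_fin, Fintype.card_sum,
        Fintype.card_bool, nsmul_eq_mul, pow_add]
      push_cast
      rw [← mul_assoc, ← mul_pow]; norm_num

lemma dead_pr (n : ℕ) (hn : n ≤ 2 ^ w) (z : Z w) :
    (P (Z w × Bool)).real {η | ¬ alive η n z} ≤ 1 / 6 := by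
  have : {η | ¬ alive η n z} ⊆ Wd z 2 ∪
      ⋃ c ∈ Finset.Icc z.1 (z.1 + n) ×ˢ (Finset.univ : Finset (ZMod w)), Wd c (2 * w) :=
    fun η h => (dead' n z h).imp id fun ⟨c, h1, h2, h3⟩ =>
      mem_iUnion₂.2 ⟨c, by simp [h1, h2], h3⟩
  refine (measureReal_mono this).trans ((measureReal_union_le _ _).trans ?_)
  have a := (measureReal_biUnion_finset_le (μ := P (Z w × Bool)) _ _).trans
    (Finset.sum_le_card_nsmul (Finset.Icc z.1 (z.1 + n) ×ˢ (Finset.univ : Finset (ZMod w))) _ _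
    fun c _ => Wd_pr c (2 * w))
  have b := Wd_pr z 2
  rw [Finset.card_product, Int.card_Icc, Finset.card_univ, ZMod.card, nsmul_eq_mul,
    show (z.1 + n + 1 - z.1).toNat = n + 1 by omega] at a
  obtain ⟨k, rfl⟩ := Nat.exists_eq_succ_of_ne_zero (NeZero.ne w)
  have c1 : k + 1 ≤ 2 ^ (k + 1) := Nat.lt_two_pow_self.le
  have c2 : (((n + 1) * (k + 1) : ℕ) : ℝ) ≤ 2 * 4 ^ (k + 1) := by
    have : (n + 1) * (k + 1) ≤ (2 * 2 ^ (k + 1)) * 2 ^ (k + 1) := Nat.mul_le_mul (by omega) c1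
    rw [mul_assoc, ← mul_pow] at this
    exact_mod_cast this
  have c3 : (4:ℝ) ^ (k + 1) * (1 / 10) ^ (2 * (k + 1)) ≤ 1 / 25 := by
    rw [pow_mul, ← mul_pow, pow_succ]
    have : (4 * (1 / 10) ^ 2 : ℝ) ^ k ≤ 1 := pow_le_one₀ (by norm_num) (by norm_num)
    nlinarith
  have c4 : (0:ℝ) ≤ (1 / 10) ^ (2 * (k + 1)) := by positivity
  simp only [Nat.succ_eq_add_one] at *
  nlinarith

lemma tune : ∃ L, 2 ^ w ≤ L ∧ 1 / 2 ≤ f w L ∧ f w (L + 1) < 1 / 2 := by
  classical
  have h1 : 5 / 6 ≤ f w (2 ^ w) := by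
    have a := dead_pr (2 ^ w) le_rfl ((0, 0) : Z w)
    have b := X_prc (w := w) 0 (2 ^ w)
    have : (P (Z w × Bool)).real (X 0 (0 + (2 ^ w : ℕ)))ᶜ ≤ _ := (measureReal_mono
      fun η h k => by
        obtain ⟨y, y1, y2⟩ := alive_R _ _ k
        exact h (cross y2 le_rfl y1.ge (by positivity))).trans a
    linarith
  have h2 := Nat.find_spec (f_small (w := w))
  have h3 : 2 ^ w < Nat.find (f_small (w := w)) := by
    by_contra h
    have := f_anti (w := w) (not_lt.1 h)
    linarith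
  obtain ⟨L, hL⟩ := Nat.exists_eq_add_of_lt h3
  exact ⟨2 ^ w + L, by omega, not_lt.1 (Nat.find_min f_small (by omega)), hL ▸ h2⟩

lemma nofull {K m : ℕ} (hK : 0 < K) (h : 32 * (K:ℝ) ^ 2 ≤ (999 / 500) ^ w)
    (hm : 2 ^ w / (2 * K) ≤ m) (a : ℤ) :
    (P (Z w × Bool)).real (⋂ k < m, (Full (a + k))ᶜ) ≤ 1 / (16 * K) := by
  refine (lev false true a m).le.trans ?_
  rw [if_pos rfl]
  have e : ((999:ℝ) / 500) ^ w = 2 ^ w * (999 / 1000) ^ w := by rw [← mul_pow]; norm_num
  rw [e] at h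
  have x1 : ((999:ℝ) / 1000) ^ w ≤ 1 := pow_le_one₀ (by norm_num) (by norm_num)
  have x0 : 0 ≤ ((999:ℝ) / 1000) ^ w := by positivity
  generalize ((999:ℝ) / 1000) ^ w = x at *
  have h1 : (2:ℝ) ^ w ≤ 2 * K * (m + 1) := by
    have := Nat.lt_mul_div_succ (2 ^ w) (show 0 < 2 * K by omega)
    exact_mod_cast this.le.trans (Nat.mul_le_mul_left _ (by omega))
  have K0 : (0:ℝ) < K := by exact_mod_cast hK
  have h2 : 16 * K ≤ 1 + m * x := by
    have : 2 * K * (16 * K) ≤ 2 * K * (1 + m * x) := by nlinarith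
    exact le_of_mul_le_mul_left this (by positivity)
  have h3 := one_add_mul_le_pow (show -2 ≤ x by linarith) m
  have h4 : (1 - x) ^ m * (1 + x) ^ m ≤ 1 := by
    rw [← mul_pow]; exact pow_le_one₀ (by nlinarith) (by nlinarith)
  have h5 : 0 ≤ (1 - x) ^ m := pow_nonneg (by linarith) m
  rw [le_div_iff₀ (by positivity)]
  nlinarith

lemma uncross {K m L : ℕ} (hK : 0 < K) (h : 32 * (K:ℝ) ^ 2 ≤ (999 / 500) ^ w)
    (hm : 2 ^ w / (2 * K) ≤ m) (hL : f w (L + 1) < 1 / 2) (h1 : L + 1 ≤ 4 * K * m) :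
    (1 / (16 * K)) ^ K ≤ (P (Z w × Bool)).real
      (⋂ k < K, (X ((k:ℕ) * (2 * m)) (k * (2 * m) + (2 * m : ℕ)))ᶜ) := by
  rw [prod (fun k => B w (k * (2 * m)) (k * (2 * m) + (2 * m : ℕ))) _ (fun k => (X_dep _ _).compl)
    (fun k l h => Finset.disjoint_left.2 fun q h1 h2 => by
      rw [mem_B] at h1 h2
      have : ((k:ℤ) + 1) * (2 * m) ≤ l * (2 * m) := by gcongr; omega
      push_cast at h1; linarith [h1.2, h2.1]) _ fun k => X_prc _ _]
  have K0 : (0:ℝ) < K := by exact_mod_cast hK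
  gcongr
  have : (X (w := w) 0 (0 + ((4 * K * m : ℕ) : ℤ)))ᶜ ⊆ ⋃ k ∈ Finset.range (4 * K),
      (X ((k:ℕ) * m) (k * m + (2 * m : ℕ)))ᶜ ∪ ⋂ i < m, (Full ((k:ℕ) * m + i))ᶜ := fun η hη => by
    by_contra hc
    simp only [mem_iUnion, mem_union, mem_compl_iff, mem_iInter, not_exists, not_or, not_not,
      not_forall, Finset.mem_range] at hc
    have := chain (η := η) m (4 * K - 2) (fun k hk => by simpa using (hc k (by omega)).1)
      fun k hk => by simpa using (hc k (by omega)).2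
    refine hη ?_
    rwa [show ((4 * K - 2 : ℕ) : ℤ) * m + 2 * m = 0 + (4 * K * m : ℕ) by
      rw [Nat.cast_sub (by omega)]; push_cast; ring] at this
  have a := (measureReal_mono (μ := P _) this (measure_ne_top _ _)).trans ((measureReal_biUnion_finset_le _ _).trans
    (Finset.sum_le_card_nsmul _ _ _ fun k _ => (measureReal_union_le _ _).trans
      (add_le_add (X_prc _ _).le (nofull hK h hm _))))
  rw [X_prc, Finset.card_range, nsmul_eq_mul] at a
  have b := f_anti (w := w) h1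
  rw [div_le_iff₀ (by positivity)]
  have e : ((4 * K : ℕ) : ℝ) * (1 / (16 * K)) = 1 / 4 := by push_cast; field_simp; norm_num
  rw [mul_add, e] at a
  push_cast at a
  nlinarith

lemma far {h : ℕ} (hw : 32 * ((2:ℕ):ℝ) ^ 2 ≤ (999 / 500) ^ w) (hh : 2 ^ w / (2 * 2) < h)
    (hf : 1 / 2 ≤ f w h) (x : Z w) :
    1 / 4 < (P (Z w × Bool)).real {η | ∃ y : Z w, y.1 = x.1 + h ∧ R η (Ico x.1 (x.1 + h)) x y} := by
  set n := 2 ^ w / (2 * 2)
  have a := nofull two_pos hw (le_refl n) x.1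
  have b := dead_pr n (Nat.div_le_self _ _) x
  have c := X_prc (w := w) x.1 h
  have : (univ : Set (Z w × Bool → Bool)) ⊆ {η | ∃ y : Z w, y.1 = x.1 + h ∧
      R η (Ico x.1 (x.1 + h)) x y} ∪ ((⋂ k < n, (Full (x.1 + k))ᶜ) ∪
      ({η | ¬ alive η n x} ∪ (X x.1 (x.1 + h))ᶜ)) := fun η _ => by
    by_contra hc
    simp only [mem_union, mem_compl_iff, mem_iInter, not_or, not_not, not_forall,
      mem_ofPred_eq] at hc
    obtain ⟨h1, ⟨k, hk, h2⟩, h3, h4⟩ := hc
    obtain ⟨y, y1, y2⟩ := alive_R _ _ h3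
    exact h1 (glue y2 (by omega) (by omega) h2 h4 (by omega) (by omega)
      (Ico_subset_Ico le_rfl (by omega)) subset_rfl)
  have e := (measureReal_mono (μ := P _) this (measure_ne_top _ _)).trans ((measureReal_union_le _ _).trans
    (add_le_add le_rfl ((measureReal_union_le _ _).trans (add_le_add a
      ((measureReal_union_le _ _).trans (add_le_add b c.le))))))
  rw [probReal_univ] at e
  push_cast at e
  linarith

end Pool.Agent.H.MP_6e7106_pr
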