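import Mathlib
import Pool.Agent.H.MP_6e7106_pr.B

set_option autoImplicit false
open Set Relation MeasureTheory ProbabilityTheory Filter SimpleGraph

namespace Pool.Agent.H.MP_6e7106_pr

def T (L w : ℕ) : SimpleGraph (ZMod L × ZMod w) := .fromRel fun x y => ∃ c, y = x + d c

variable {L w : ℕ}

lemma z3 (h : 3 ≤ L) : (1 : ZMod L) ≠ 0 ∧ (1 + 1 : ZMod L) ≠ 0 := by
  constructor
  · have := (ZMod.natCast_eq_zero_iff 1 L).not.2 fun k => by have := Nat.le_of_dvd one_pos k; omega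
    simpa using this
  · have := (ZMod.natCast_eq_zero_iff 2 L).not.2 fun k => by have := Nat.le_of_dvd two_pos k; omega
    rwa [one_add_one_eq_two]

lemma dd (hL : 3 ≤ L) (hw : 3 ≤ w) (c c' : Bool) : (d c : ZMod L × ZMod w) ≠ 0 ∧
    (d c + d c' : ZMod L × ZMod w) ≠ 0 ∧ ((d c : ZMod L × ZMod w) = d c' → c = c') := by
  have := z3 hL; have := z3 hw
  cases c <;> cases c' <;> simp [d, Prod.ext_iff, *]

lemma adj (hL : 3 ≤ L) (hw : 3 ≤ w) {x y : ZMod L × ZMod w} :
    (T L w).Adj x y ↔ ∃ c, y = x + d c ∨ x = y + d c := by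
  rw [T, fromRel_adj, exists_or, and_iff_right_iff_imp]
  rintro (⟨c, h⟩ | ⟨c, h⟩) rfl <;> exact (dd hL hw c c).1 (by simpa using h)

lemma deg (hL : 3 ≤ L) (hw : 3 ≤ w) (v : ZMod L × ZMod w) : ((T L w).neighborSet v).ncard = 4 := by
  have : (T L w).neighborSet v = range fun q : Bool × Bool => if q.2 then v + d q.1 else v - d q.1 := by
    ext y
    simp only [mem_neighborSet, adj hL hw, mem_range, Prod.exists]
    refine exists_congr fun c => ?_
    simp only [Bool.exists_bool, Bool.false_eq_true, if_false, if_true, sub_eq_iff_eq_add, or_comm,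
      eq_comm (a := y)]
  rw [this, ← image_univ, ncard_image_of_injective, ncard_univ]
  · simp
  · rintro ⟨c, _ | _⟩ ⟨c', _ | _⟩ h <;> simp only [Bool.false_eq_true, if_false, if_true] at h
    · rw [(dd hL hw c c').2.2 (sub_right_injective h)]
    · exact absurd (by linear_combination -h) (dd hL hw c c').2.1
    · exact absurd (by linear_combination h) (dd hL hw c c').2.1
    · rw [(dd hL hw c c').2.2 (add_left_cancel h)]

lemma trans (hL : 3 ≤ L) (hw : 3 ≤ w) (u v : ZMod L × ZMod w) :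
    ∃ φ : T L w ≃g T L w, φ u = v :=
  ⟨⟨Equiv.addRight (v - u), by
    intro a b
    simp only [adj hL hw, Equiv.coe_addRight, add_right_comm _ (v - u), add_left_inj]⟩, by simp⟩

lemma line (hL : 3 ≤ L) (hw : 3 ≤ w) (c : Bool) (x : ZMod L × ZMod w) (n : ℕ) :
    (T L w).edist x (x + n • d c) ≤ n := by
  induction n with
  | zero => simp
  | succ n ih =>
    refine (SimpleGraph.edist_triangle (v := x + n • d c)).trans ?_
    push_cast
    exact add_le_add ih (edist_eq_one_iff_adj.2 ((adj hL hw).2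
      ⟨c, .inl (by rw [succ_nsmul, add_assoc])⟩)).le

lemma ed_le (hL : 3 ≤ L) (hw : 3 ≤ w) (x y : ZMod L × ZMod w) :
    (T L w).edist x y ≤ (L / 2 + w : ℕ) := by
  have : NeZero L := ⟨by omega⟩
  have : NeZero w := ⟨by omega⟩
  wlog h : (y.1 - x.1).val ≤ L / 2 generalizing x y
  · rw [edist_comm]
    refine this y x ?_
    rw [← neg_sub, ZMod.neg_val]
    split_ifs <;> omega
  have a := line hL hw true x (y.1 - x.1).val
  have b := line hL hw false (x + (y.1 - x.1).val • d true) (y.2 - x.2).val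
  rw [show x + (y.1 - x.1).val • d true + (y.2 - x.2).val • d false = y by ext <;> simp [d]] at b
  refine SimpleGraph.edist_triangle.trans ((add_le_add a b).trans ?_)
  exact_mod_cast add_le_add h (ZMod.val_lt _).le

lemma conn (hL : 3 ≤ L) (hw : 3 ≤ w) : (T L w).Connected :=
  ⟨fun x y => reachable_of_edist_ne_top (ne_top_of_le_ne_top (ENat.natCast_ne_top _) (ed_le hL hw x y))⟩

lemma diam_le (hL : 3 ≤ L) (hw : 3 ≤ w) : (T L w).diam ≤ L / 2 + w :=
  ENat.toNat_le_of_le_natCast (ediam_le_of_edist_le (ed_le hL hw))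

lemma walk_k (hL : 3 ≤ L) (hw : 3 ≤ w) {u v : ZMod L × ZMod w} (p : (T L w).Walk u v) :
    ∃ k : ℤ, |k| ≤ p.length ∧ v.1 = u.1 + k := by
  induction p with
  | nil => exact ⟨0, by simp, by simp⟩
  | cons h p ih =>
    obtain ⟨k, k1, k2⟩ := ih
    rw [abs_le] at k1
    obtain ⟨_ | _, rfl | rfl⟩ := (adj hL hw).1 h
    · exact ⟨k, by rw [abs_le, Walk.length_cons]; omega, by simpa [d] using k2⟩
    · exact ⟨k, by rw [abs_le, Walk.length_cons]; omega, by simpa [d] using k2⟩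
    · exact ⟨k + 1, by rw [abs_le, Walk.length_cons]; omega, by rw [k2]; simp [d]; ring⟩
    · exact ⟨k - 1, by rw [abs_le, Walk.length_cons]; omega, by rw [k2]; simp [d]⟩

lemma dist_ge (hL : 3 ≤ L) (hw : 3 ≤ w) {u v : ZMod L × ZMod w} (h : v.1 = u.1 + (L / 2 : ℕ)) :
    L / 2 ≤ (T L w).dist u v := by
  obtain ⟨p, hp⟩ := (conn hL hw).exists_walk_length_eq_dist u v
  obtain ⟨k, k1, k2⟩ := walk_k hL hw p
  rw [h, add_right_inj, ← Int.cast_natCast, ZMod.intCast_eq_intCast_iff_dvd_sub] at k2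
  rw [abs_le, hp] at k1
  by_contra hc
  have := Int.eq_zero_of_abs_lt_dvd k2 (by rw [abs_lt]; omega)
  omega

def pj (L : ℕ) (z : Z w) : ZMod L × ZMod w := (z.1, z.2)

lemma pj_d (z : Z w) (c : Bool) : pj L (z + d c) = pj L z + d c := by cases c <;> simp [pj, d]

def ψ (L : ℕ) (q : Z w × Bool) : Sym2 (ZMod L × ZMod w) := s(pj L q.1, pj L q.1 + d q.2)

lemma ψ_inj [NeZero w] (hL : 3 ≤ L) (hw : 3 ≤ w) (a : ℤ) :
    InjOn (ψ (w := w) L) (B w a (a + L)) := by
  rintro ⟨z, c⟩ h1 ⟨z', c'⟩ h2 h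
  rw [Finset.mem_coe, mem_B] at h1 h2
  rcases Sym2.eq_iff.1 h with ⟨e1, e2⟩ | ⟨e1, e2⟩
  · rw [e1] at e2
    have e3 := congrArg Prod.fst e1
    simp only [pj, ZMod.intCast_eq_intCast_iff_dvd_sub] at e3
    have := Int.eq_zero_of_abs_lt_dvd e3 (by simp only at h1 h2; rw [abs_lt]; omega)
    exact Prod.ext (Prod.ext (by simp only; omega) (congrArg Prod.snd e1 :))
      ((dd hL hw c c').2.2 (add_left_cancel e2))
  · exact absurd (by linear_combination e2 - e1) (dd hL hw c c').2.1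

def g (ω : Sym2 (ZMod L × ZMod w) → Bool) : SimpleGraph (ZMod L × ZMod w) :=
  T L w ⊓ fromEdgeSet {e | ω e = true}

variable {ω : Sym2 (ZMod L × ZMod w) → Bool}

lemma proj (hL : 3 ≤ L) (hw : 3 ≤ w) {I : Set ℤ} {x y : Z w} (h : R (fun q => ω (ψ L q)) I x y) :
    (g ω).Reachable (pj L x) (pj L y) := by
  induction h with
  | refl => rfl
  | tail _ hs ih =>
    obtain ⟨z, c, -, h2, h3⟩ := hs
    have k := (adj hL hw).2 ⟨c, .inl (pj_d z c)⟩
    have : (g ω).Adj (pj L z) (pj L (z + d c)) := ⟨k, by rw [pj_d]; exact h2, k.ne⟩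
    rcases h3 with ⟨rfl, rfl⟩ | ⟨rfl, rfl⟩
    exacts [ih.trans this.reachable, ih.trans this.symm.reachable]

lemma lift (hL : 3 ≤ L) (hw : 3 ≤ w) (x : Z w) {v : ZMod L × ZMod w}
    (h : (g ω).Reachable (pj L x) v) : ∃ y, pj L y = v ∧ R (fun q => ω (ψ L q)) univ x y := by
  rw [reachable_iff_reflTransGen] at h
  induction h with
  | refl => exact ⟨x, rfl, .refl⟩
  | tail _ hs ih =>
    obtain ⟨y, rfl, y2⟩ := ih
    obtain ⟨h1, h2, -⟩ := hs
    obtain ⟨c, rfl | h⟩ := (adj hL hw).1 h1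
    · exact ⟨y + d c, pj_d _ _, .tail y2 ⟨y, c, trivial, h2, .inl ⟨rfl, rfl⟩⟩⟩
    · have e := pj_d (L := L) (y - d c) c
      rw [sub_add_cancel, h, add_left_inj] at e
      refine ⟨y - d c, e.symm, .tail y2 ⟨y - d c, c, trivial, ?_, .inr ⟨rfl, by simp⟩⟩⟩
      rw [h, e] at h2
      show ω s(_, _) = true
      rw [Sym2.eq_swap]
      exact h2

lemma noc {K m : ℕ} (hm : 0 < m) (hK : 0 < K) (h1 : 2 * K * m ≤ L) (h2 : L ≤ 2 * K * m + 2 * K)
    (h : ∀ k < K, (fun q => ω (ψ L q)) ∉ X ((k:ℕ) * (2 * m)) (k * (2 * m) + (2 * m : ℕ)))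
    {x y : Z w} (r : R (fun q => ω (ψ L q)) univ x y) : y.1 < x.1 + (4 * m + 2 * K : ℕ) := by
  by_contra hc
  have L0 : (0:ℤ) < L := by have : 0 < 2 * K * m := by positivity
                            omega
  have key : ∀ (s : ℤ) (k : ℕ), k < K → x.1 ≤ k * (2 * m) + s * L →
      k * (2 * m) + (2 * m : ℕ) + s * L ≤ y.1 → False := fun s k hk a b => by
    have := (X_shift (s * L)).2 (cross r a b (by omega))
    refine h k hk ?_
    simpa [ψ, pj] using this
  have e1 := Int.emod_add_mul_ediv x.1 L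
  have e2 := Int.emod_nonneg x.1 L0.ne'
  have e3 := Int.emod_lt_of_pos x.1 L0
  lift x.1 % L to ℕ using e2 with t ht
  have e4 := Nat.mod_add_div t (2 * m)
  have e5 := Nat.mod_lt t (show 0 < 2 * m by omega)
  generalize t / (2 * m) = i at *
  generalize t % (2 * m) = j at *
  have : (0:ℤ) ≤ j := by positivity
  generalize x.1 / L = s at *
  zify at *
  by_cases k : i + 1 < K
  · exact key s (i + 1) (by exact_mod_cast k) (by push_cast; linarith) (by push_cast; linarith)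
  · have : (K:ℤ) * (2 * m) ≤ (i + 1) * (2 * m) := by gcongr; omega
    exact key (s + 1) 0 hK (by push_cast; linarith) (by push_cast; linarith)

lemma size [NeZero L] [NeZero w] (hL : 3 ≤ L) (hw : 3 ≤ w) {D : ℕ}
    (h : ∀ x y, R (fun q => ω (ψ L q)) univ x y → y.1 < x.1 + D) (c : (g ω).ConnectedComponent) :
    c.supp.ncard ≤ 2 * D * w := by
  classical
  induction c using ConnectedComponent.ind with
  | h u =>
    have e : u = pj L ((u.1.val : ℤ), u.2) := by simp [pj]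
    generalize ((u.1.val : ℤ), u.2) = x at e
    subst e
    have : ((g ω).connectedComponentMk (pj L x)).supp ⊆
        ↑((Finset.Ico (x.1 - D) (x.1 + D) ×ˢ (Finset.univ : Finset (ZMod w))).image (pj L)) :=
      fun v hv => by
      obtain ⟨y, rfl, y2⟩ := lift hL hw x (ConnectedComponent.exact hv).symm
      have := h _ _ y2
      have := h _ _ y2.symm
      exact Finset.mem_coe.2 (Finset.mem_image_of_mem _ (by simp; omega))
    refine (ncard_le_ncard this).trans ?_
    rw [ncard_coe_finset]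
    refine Finset.card_image_le.trans (le_of_eq ?_)
    rw [Finset.card_product, Int.card_Ico, Finset.card_univ, ZMod.card]
    congr 1; omega

lemma pa [NeZero L] [NeZero w] (hw : 32 * ((2:ℕ):ℝ) ^ 2 ≤ (999 / 500) ^ w) (h3 : 3 ≤ w)
    (h1 : 2 ^ w ≤ L) (h2 : 1 / 2 ≤ f w L) (v : ZMod L × ZMod w) :
    1 / 4 < (P _).real {ω : Sym2 (ZMod L × ZMod w) → Bool | ∃ x y, (g ω).Reachable v x ∧
      (g ω).Reachable v y ∧ ((T L w).diam : ℝ) / 2 ≤ (T L w).dist x y} := by
  obtain ⟨k, rfl⟩ := Nat.exists_eq_add_of_le' h3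
  have := Nat.lt_two_pow_self (n := k)
  have e0 : 2 ^ (k + 3) = 8 * 2 ^ k := by ring
  have hL : 3 ≤ L := by omega
  have e : v = pj L ((v.1.val : ℤ), v.2) := by simp [pj]
  generalize ((v.1.val : ℤ), v.2) = x at e
  subst e
  refine (far (h := L / 2) hw (by omega) (h2.trans (f_anti (Nat.div_le_self _ _))) x).trans_le ?_
  rw [← tr (S := B _ x.1 (x.1 + L)) _ (ψ L) (ψ_inj hL h3 _)]
  · refine measureReal_mono ?_
    rintro ω ⟨y, y1, y2⟩
    refine ⟨_, _, .refl _, proj hL h3 y2, ?_⟩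
    have a := diam_le hL h3
    have b := dist_ge hL h3 (u := pj L x) (v := pj L y) (by simp only [pj, y1, Int.cast_add, Int.cast_natCast])
    rw [div_le_iff₀ two_pos]
    exact_mod_cast (by omega : (T L (k + 3)).diam ≤ (T L (k + 3)).dist (pj L x) (pj L y) * 2)
  · exact fun η η' e ⟨y, y1, y2⟩ => ⟨y, y1, y2.cg subset_rfl fun z c hz =>
      e (z, c) (mem_B.2 ⟨hz.1, by have := hz.2; simp only; omega⟩)⟩

lemma pb [NeZero L] [NeZero w] {K : ℕ} (hK : 0 < K) (hw : 32 * (K:ℝ) ^ 2 ≤ (999 / 500) ^ w)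
    (h3 : 3 ≤ w) (h1 : 2 ^ w ≤ L) (h2 : f w (L + 1) < 1 / 2) (h4 : K ^ 2 ≤ L) (h5 : 2 * K ≤ L) {C : ℝ}
    (hC : 8 < C * K) :
    (P _).real {ω : Sym2 (ZMod L × ZMod w) → Bool | ∃ c : (g ω).ConnectedComponent,
      C * (L * w : ℕ) ≤ c.supp.ncard} ≤ 1 - (1 / (16 * K)) ^ K := by
  have hL : 3 ≤ L := le_trans (le_trans h3 Nat.lt_two_pow_self.le) h1
  have m0 : 0 < L / (2 * K) := Nat.div_pos h5 (by omega)
  have m1 : 2 * K * (L / (2 * K)) ≤ L := Nat.mul_div_le _ _
  have m2 : L < 2 * K * (L / (2 * K) + 1) := Nat.lt_mul_div_succ _ (by omega)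
  have m3 : 2 ^ w / (2 * K) ≤ L / (2 * K) := Nat.div_le_div_right h1
  generalize L / (2 * K) = m at *
  have a := uncross hK hw m3 h2 (show L + 1 ≤ 4 * K * m by nlinarith)
  rw [← tr (S := B _ 0 (0 + L)) _ (ψ L) (ψ_inj hL h3 _)] at a
  · rw [le_sub_comm, ← probReal_compl_eq_one_sub .of_discrete]
    refine a.trans (measureReal_mono ?_)
    rintro ω hω ⟨c, hc⟩
    simp only [mem_ofPred_eq, mem_iInter] at hω
    have b := size hL h3 (fun x y r => noc m0 hK m1 (by nlinarith) hω r) c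
    have b1 : (c.supp.ncard : ℝ) ≤ 2 * (4 * m + 2 * K) * w := by exact_mod_cast b
    have w0 : (0:ℝ) < w := by positivity
    have L0 : (0:ℝ) < L := by positivity
    have K0 : (0:ℝ) < K := by positivity
    have b2 : C * L ≤ 2 * (4 * m + 2 * K) := by
      push_cast at hc
      exact le_of_mul_le_mul_right (by linarith) w0
    have b3 : (2 * K * m : ℝ) ≤ L := by exact_mod_cast m1
    have b4 : (K:ℝ) ^ 2 ≤ L := by exact_mod_cast h4
    nlinarith
  · intro η η' e h
    simp only [mem_iInter] at h ⊢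
    refine fun k hk => (X_dep _ _).compl η η' (fun q hq => e q ?_) (h k hk)
    rw [mem_B] at *
    have : ((k:ℤ) + 1) * (2 * m) ≤ K * (2 * m) := by gcongr; omega
    have : (0:ℤ) ≤ k * (2 * m) := by positivity
    zify at m1
    push_cast at hq
    constructor <;> linarith [hq.1, hq.2]

end Pool.Agent.H.MP_6e7106_pr
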